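import Pool.Agent.Helper71.PR.Basic

/-!
# Packet PR-R4: regularity of products
-/

set_option autoImplicit false

namespace Pool.Agent.Helper31.PR

open Matrix Filter Topology
open Pool.Agent.Helper71.PR

theorem near_mul {n : ℕ} (B D κ : Mt n) (δ R : ℝ) (hδ : 0 ≤ δ) (hκ : near κ 1 δ) (hB : near B D 1)
    (hR : ∀ i, ∑ c, (|D i c| + 1) ≤ R) : near (B * κ) B (R * δ) := by
  intro i j
  have e1 : (B * κ) i j - B i j = ∑ c, B i c * (κ c j - (1 : Mt n) c j) := by
    have e : B i j = (B * 1) i j := by rw [Matrix.mul_one]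
    rw [e, Matrix.mul_apply, Matrix.mul_apply, ← Finset.sum_sub_distrib]
    refine Finset.sum_congr rfl fun c _ => ?_
    ring
  rw [e1]
  calc |∑ c, B i c * (κ c j - (1 : Mt n) c j)| ≤ ∑ c, |B i c * (κ c j - (1 : Mt n) c j)| :=
        Finset.abs_sum_le_sum_abs _ _
    _ ≤ ∑ c, (|D i c| + 1) * δ := by
        refine Finset.sum_le_sum fun c _ => ?_
        rw [abs_mul]
        have h1 : |B i c| ≤ |D i c| + 1 := by
          have h2 : |B i c| ≤ |B i c - D i c| + |D i c| := by
            have := abs_add_le (B i c - D i c) (D i c)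
            rwa [sub_add_cancel] at this
          linarith [hB i c]
        exact mul_le_mul h1 (hκ c j) (abs_nonneg _) (by positivity)
    _ = (∑ c, (|D i c| + 1)) * δ := by rw [Finset.sum_mul]
    _ ≤ R * δ := mul_le_mul_of_nonneg_right (hR i) hδ

theorem r4 (h1 : G_LDUS) (h2 : G_CJ) (h3 : G_EIG) : G_R4 := by
  intro n p q a P Q u l hp hq hP hQ hG hu hl hld hPu ε hε
  classical
  set A : ℕ → Mt n := fun m => diagonal (a m) with hA
  set Ai : ℕ → Mt n := fun m => diagonal (fun i => (a m i)⁻¹) with hAi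
  set N : ℕ → Mt n := fun m => (Ai m * u⁻¹ * A m) * ((q m)⁻¹ * p m * u) with hN
  have hNl : Tendsto N atTop (𝓝 l) := by
    have e1 : Tendsto (fun m => Ai m * u⁻¹ * A m) atTop (𝓝 1) :=
      (h2 n a hG).2 (fun _ => u⁻¹) u⁻¹ (fun _ => hu.inv) tendsto_const_nhds
    have e2 : Tendsto (fun m => (q m)⁻¹ * p m * u) atTop (𝓝 (Q⁻¹ * P * u)) :=
      ((tendsto_inv_mt hq hQ).mul hp).mul tendsto_const_nhds
    have e3 := e1.mul e2
    have e4 : (1 : Mt n) * (Q⁻¹ * P * u) = l := by
      rw [one_mul, Matrix.mul_assoc, hPu, ← Matrix.mul_assoc,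
        Matrix.nonsing_inv_mul Q (isUnit_iff_ne_zero.2 hQ), one_mul]
    rw [e4] at e3
    exact e3
  have hlead : ∀ j : Fin n, ld j l ≠ 0 := by
    intro j
    rw [ld_lowT hl j]
    exact Finset.prod_ne_zero_iff.2 fun i _ => hl.diag_ne hld i
  obtain ⟨L, U, d, L0, U0, C, hL, hU, hL0, hU0, tL, tU, -, hU0e, hd0, hY, hC, -⟩ :=
    h1 n N (fun _ _ => 1) (fun j => cp ((j : ℕ) + 1) l)
      (fun j => by simpa using cp_tendsto ((j : ℕ) + 1) hNl)
      (fun j => hlead j)
  have hU01 : U0 = 1 := by
    ext j i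
    rcases lt_trichotomy j i with h | h | h
    · have e := hU0e i j h.le
      rw [cp_bd_lowT hl j i h] at e
      rw [Matrix.one_apply_ne h.ne]
      exact (mul_eq_zero.1 e).resolve_right (hlead j)
    · rw [h, Matrix.one_apply_eq]; exact hU0.1 i
    · rw [Matrix.one_apply_ne h.ne']; exact hU0.2 j i h
  rw [hU01] at tU
  set L' : ℕ → Mt n := fun m => A m * L m * Ai m with hL'
  have tL' : Tendsto L' atTop (𝓝 1) := (h2 n a hG).1 L L0 hL tL
  set E : ℕ → Mt n := fun m => U m * L' m with hE
  have tE : Tendsto E atTop (𝓝 1) := by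
    have e := tU.mul tL'
    rw [one_mul] at e
    exact e
  set B : ℕ → Mt n := fun m => p m * u * (U m)⁻¹ with hB
  have tB : Tendsto B atTop (𝓝 (P * u)) := by
    have e1 : Tendsto (fun m => (U m)⁻¹) atTop (𝓝 (1 : Mt n)⁻¹) :=
      tendsto_inv_mt tU (by rw [Matrix.det_one]; exact one_ne_zero)
    have e := (hp.mul (tendsto_const_nhds (x := u))).mul e1
    rw [inv_one, mul_one] at e
    exact e
  -- choice of δ
  obtain ⟨R, hR0, hR⟩ : ∃ R : ℝ, 0 < R ∧ ∀ i, ∑ c, (|(P * u) i c| + 1) ≤ R := by
    refine ⟨1 + ∑ i, ∑ c, (|(P * u) i c| + 1), by positivity, fun i => ?_⟩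
    have : ∑ c, (|(P * u) i c| + 1) ≤ ∑ i, ∑ c, (|(P * u) i c| + 1) :=
      Finset.single_le_sum (f := fun i => ∑ c, (|(P * u) i c| + 1)) (fun i _ => by positivity)
        (Finset.mem_univ i)
    linarith
  obtain ⟨κ, hκ, K, hK⟩ := h3 n (ε / (2 * R)) (by positivity)
  -- the gaps
  have hgap : ∀ i j : Fin n, ∀ᶠ m in atTop, i < j → K * |a m j * d m j| ≤ |a m i * d m i| := by
    intro i j
    by_cases hij : i < j
    · have g1 : Tendsto (fun m => a m j / a m i * (|C| * |K|)) atTop (𝓝 0) := by
        have := (hG.2 i j hij).mul_const (|C| * |K|)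
        rwa [zero_mul] at this
      have g2 : ∀ᶠ m in atTop, |a m j / a m i * (|C| * |K|)| < 1 := by
        have := g1.eventually (Metric.ball_mem_nhds (0 : ℝ) one_pos)
        filter_upwards [this] with m hm
        rwa [Real.dist_0_eq_abs] at hm
      filter_upwards [g2, hG.1, hC] with m g3 g4 g5 _
      have g6 := g5 i j hij
      have g7 : |a m j| * (|C| * |K|) ≤ |a m i| := by
        rw [abs_mul, abs_div, abs_of_nonneg (by positivity : 0 ≤ |C| * |K|), div_mul_eq_mul_div,
          div_lt_one (abs_pos.2 (g4 i))] at g3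
        exact g3.le
      rw [abs_mul, abs_mul]
      calc K * (|a m j| * |d m j|) ≤ |K| * (|a m j| * |d m j|) :=
            mul_le_mul_of_nonneg_right (le_abs_self K) (by positivity)
        _ ≤ |K| * (|a m j| * (|C| * |d m i|)) := by
            refine mul_le_mul_of_nonneg_left (mul_le_mul_of_nonneg_left ?_ (abs_nonneg _)) (abs_nonneg _)
            exact g6.trans (mul_le_mul_of_nonneg_right (le_abs_self C) (abs_nonneg _))
        _ = (|a m j| * (|C| * |K|)) * |d m i| := by ring
        _ ≤ |a m i| * |d m i| := mul_le_mul_of_nonneg_right g7 (abs_nonneg _)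
    · exact Filter.Eventually.of_forall fun m h => absurd h hij
  have hgap' := Filter.eventually_all.2 fun i => Filter.eventually_all.2 fun j => hgap i j
  filter_upwards [hgap', hG.1, hY, eventually_near tE hκ, eventually_near tB one_pos,
    eventually_near tB (half_pos hε), eventually_det_ne hp hP, eventually_det_ne hq hQ]
    with m gm am ym em bm1 bm2 pm qm
  obtain ⟨k, μ, kd, kn, ke, μ0, μl⟩ := hK (E m) (fun i => a m i * d m i) em
    (fun i => mul_ne_zero (am i) (hd0 m i)) gm
  refine ⟨B m * k, μ, ⟨?_, ?_, μl⟩, ?_⟩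
  · rw [Matrix.det_mul]
    refine mul_ne_zero ?_ kd
    show (p m * u * (U m)⁻¹).det ≠ 0
    rw [Matrix.det_mul, Matrix.det_mul, hu.det, (hU m).inv.det, mul_one, mul_one]
    exact pm
  · -- the equation
    have kd' : IsUnit (B m * k).det := by
      rw [Matrix.det_mul]
      refine isUnit_iff_ne_zero.2 (mul_ne_zero ?_ kd)
      show (p m * u * (U m)⁻¹).det ≠ 0
      rw [Matrix.det_mul, Matrix.det_mul, hu.det, (hU m).inv.det, mul_one, mul_one]
      exact pm
    have hAAi : A m * Ai m = 1 := by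
      show diagonal (a m) * diagonal (fun i => (a m i)⁻¹) = 1
      rw [Matrix.diagonal_mul_diagonal, ← Matrix.diagonal_one]
      congr 1
      funext i
      exact mul_inv_cancel₀ (am i)
    have hAiA : Ai m * A m = 1 := by
      show diagonal (fun i => (a m i)⁻¹) * diagonal (a m) = 1
      rw [Matrix.diagonal_mul_diagonal, ← Matrix.diagonal_one]
      congr 1
      funext i
      exact inv_mul_cancel₀ (am i)
    have huu : u * u⁻¹ = 1 := Matrix.mul_nonsing_inv u hu.isUnit
    have hUU : U m * (U m)⁻¹ = 1 := Matrix.mul_nonsing_inv _ (hU m).isUnit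
    have hUU' : (U m)⁻¹ * U m = 1 := Matrix.nonsing_inv_mul _ (hU m).isUnit
    have hΔ : A m * diagonal (d m) = diagonal (fun i => a m i * d m i) := by
      show diagonal (a m) * diagonal (d m) = _
      rw [Matrix.diagonal_mul_diagonal]
    -- `A N = L' Δ U`
    have f1 : A m * N m = L' m * diagonal (fun i => a m i * d m i) * U m := by
      rw [ym, ← hΔ]
      show A m * (L m * diagonal (d m) * U m) = A m * L m * Ai m * (A m * diagonal (d m)) * U m
      calc A m * (L m * diagonal (d m) * U m) = A m * L m * 1 * diagonal (d m) * U m := by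
            rw [mul_one]; simp only [mul_assoc]
        _ = A m * L m * (Ai m * A m) * diagonal (d m) * U m := by rw [hAiA]
        _ = _ := by simp only [mul_assoc]
    have f2 : p m * A m * (q m)⁻¹ * (p m * u) = p m * u * (A m * N m) := by
      show p m * A m * (q m)⁻¹ * (p m * u) =
        p m * u * (A m * (Ai m * u⁻¹ * A m * ((q m)⁻¹ * p m * u)))
      calc p m * A m * (q m)⁻¹ * (p m * u) = p m * 1 * A m * ((q m)⁻¹ * p m * u) := by
            rw [mul_one]; simp only [mul_assoc]
        _ = p m * (u * 1 * u⁻¹) * A m * ((q m)⁻¹ * p m * u) := by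
            rw [mul_one u, huu]
        _ = p m * (u * (A m * Ai m) * u⁻¹) * A m * ((q m)⁻¹ * p m * u) := by rw [hAAi]
        _ = _ := by simp only [mul_assoc]
    have f3 : p m * A m * (q m)⁻¹ * (B m * k) = B m * k * diagonal μ := by
      show p m * A m * (q m)⁻¹ * (p m * u * (U m)⁻¹ * k) = p m * u * (U m)⁻¹ * k * diagonal μ
      calc p m * A m * (q m)⁻¹ * (p m * u * (U m)⁻¹ * k)
          = (p m * A m * (q m)⁻¹ * (p m * u)) * (U m)⁻¹ * k := by simp only [mul_assoc]
        _ = p m * u * (A m * N m) * (U m)⁻¹ * k := by rw [f2]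
        _ = p m * u * (L' m * diagonal (fun i => a m i * d m i) * U m) * (U m)⁻¹ * k := by rw [f1]
        _ = p m * u * (L' m * diagonal (fun i => a m i * d m i)) * (U m * (U m)⁻¹) * k := by
            simp only [mul_assoc]
        _ = p m * u * 1 * (L' m * diagonal (fun i => a m i * d m i)) * k := by
            rw [hUU, mul_one, mul_one]
        _ = p m * u * ((U m)⁻¹ * U m) * (L' m * diagonal (fun i => a m i * d m i)) * k := by
            rw [hUU']
        _ = p m * u * (U m)⁻¹ * (E m * diagonal (fun i => a m i * d m i) * k) := by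
            show _ = p m * u * (U m)⁻¹ * (U m * L' m * diagonal (fun i => a m i * d m i) * k)
            simp only [mul_assoc]
        _ = p m * u * (U m)⁻¹ * (k * diagonal μ) := by rw [ke]
        _ = _ := by simp only [mul_assoc]
    show p m * A m * (q m)⁻¹ = B m * k * diagonal μ * (B m * k)⁻¹
    rw [← f3, Matrix.mul_assoc _ (B m * k), Matrix.mul_nonsing_inv _ kd', Matrix.mul_one]
  · have g1 := near_mul (B m) (P * u) k (ε / (2 * R)) R (by positivity) kn bm1 hR
    have g2 := g1.trans bm2
    refine g2.mono (le_of_eq ?_)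
    field_simp
    ring

end Pool.Agent.Helper31.PR
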